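import Pool.Agent.H667.LV.NoGlobal

/-!
A dp-minimal (and distal) theory with a formula which does not fork over a model `M` but belongs to
no global `M`-definable type.

The model `M`: points `(l, x)` with `l` a natural number and `x` a sequence of `l` bits; on the
points of the level `l` only sums of an even number of points are visible. The formula `φ(x, y; c)`
says that `x`, `y` are on one level above the level of `c` and that `x + y` starts with the bit 1,
where the level of `c` is above all levels of `M`.
-/

namespace Pool.Agent.Results.MP_510d92_lc.NotDefinable

open FirstOrder FirstOrder.Language Pool.Agent.H667.MT Pool.Agent.H667.LV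

universe u

/-- There are a countable structure `M` in a countable language whose theory is dp-minimal (and
distal) and a formula `φ(x; y)`, `x` a pair of variables, such that in every countably saturated
(that is `|M|⁺`-saturated) elementary extension `N` of `M` there is `b` such that `φ(x; b)` does
not fork over `M` and belongs to no `M`-definable complete type over `N`. Countably saturated
elementary extensions exist. -/
theorem result : ∃ (L : FirstOrder.Language.{0, 0}) (M : Type) (_ : L.Structure M),
    Countable L.Symbols ∧ Countable M ∧ DpMinimal.{u} (L.completeTheory M) ∧
      Distal.{u} (L.completeTheory M) ∧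
      (∃ (N : Type) (_ : L.Structure N) (_ : M ↪ₑ[L] N), CountablySaturated L N) ∧
      ∃ φ : L.Formula (Fin 2 ⊕ Fin 1), ∀ (N : Type u) [L.Structure N] (f : M ↪ₑ[L] N),
        CountablySaturated L N → ∃ b : Fin 1 → N, ¬ Forks f φ b ∧
          ¬ ∃ p : Set (Set (Fin 2 → N)), IsType L p ∧ DefinableOver f p ∧
            {x | φ.Realize (Sum.elim x b)} ∈ p := by
  refine ⟨LL, Pt, inferInstance, inferInstance, inferInstance, dp_pt, distal_pt,
    exists_saturated Pt, phiX, ?_⟩
  intro N _ f hN
  obtain ⟨c, hc⟩ := exists_high f hN
  exact ⟨c, not_forks f c, fun ⟨p, hp, hd, hφ⟩ => no_global f c hc p hp hd hφ⟩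

end Pool.Agent.Results.MP_510d92_lc.NotDefinable
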